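import Pool.Agent.H60.RF.Stmts

/-! # Board rf, row GPB: many matrices whose rows are in general position -/

set_option autoImplicit false

open Finset Real

namespace Pool.RF

open Pool.Agent.H49.Ent Pool.Agent.H32.Dense Pool.STK Pool.KA Pool.GP Pool.KRN

/-- the normalised Vandermonde entries -/
noncomputable def gpbU (m K : ℕ) (i : Fin K) (s : Fin m) : ℝ :=
  ((i : ℕ) : ℝ) ^ (s : ℕ) / (K : ℝ) ^ m

lemma gpbU_nonneg (m K : ℕ) (i : Fin K) (s : Fin m) : 0 ≤ gpbU m K i s := by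
  unfold gpbU
  positivity

lemma gpbU_le (m K : ℕ) (i : Fin K) (s : Fin m) : gpbU m K i s ≤ 1 := by
  unfold gpbU
  have hK : 0 < K := lt_of_le_of_lt (Nat.zero_le _) i.isLt
  have hKr : (0 : ℝ) < (K : ℝ) ^ m := by positivity
  rw [div_le_one hKr]
  have h1 : (i : ℕ) ^ (s : ℕ) ≤ K ^ m :=
    (Nat.pow_le_pow_left i.isLt.le _).trans (Nat.pow_le_pow_right hK s.isLt.le)
  exact_mod_cast h1

/-- general position of the normalised Vandermonde rows -/
lemma gpb_det (m K : ℕ) (hm : 0 < m) : ∃ C : ℕ, ∀ s : Finset (Fin K), s.card = m →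
    ∀ (x : Fin m → ℝ) (δ : ℝ), (∀ i ∈ s, |∑ r, gpbU m K i r / m * x r| ≤ δ) →
      ∀ r, |x r| ≤ C * δ := by
  classical
  have hmr : (0 : ℝ) < m := by exact_mod_cast hm
  have hone : ∀ s : Finset (Fin K), ∃ C : ℝ, 0 ≤ C ∧ (s.card = m → ∀ (x : Fin m → ℝ) (δ : ℝ),
      (∀ i ∈ s, |∑ r, gpbU m K i r / m * x r| ≤ δ) → ∀ r, |x r| ≤ C * δ) := by
    intro s
    by_cases hs : s.card = m
    · have hK : 0 < K := by
        have h0 : 0 < s.card := by omega
        obtain ⟨i, -⟩ := Finset.card_pos.mp h0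
        exact lt_of_le_of_lt (Nat.zero_le _) i.isLt
      have hKr : (0 : ℝ) < (K : ℝ) ^ m := by positivity
      obtain ⟨e, he⟩ : ∃ e : Fin m → Fin K, e = fun l => (s.orderEmbOfFin hs l) := ⟨_, rfl⟩
      have hes : ∀ l, e l ∈ s := fun l => by rw [he]; exact Finset.orderEmbOfFin_mem s hs l
      have hinj : Function.Injective e := by
        rw [he]
        exact (s.orderEmbOfFin hs).injective
      obtain ⟨M, hM⟩ : ∃ M : Matrix (Fin m) (Fin m) ℝ,
        M = Matrix.vandermonde fun l => ((e l : ℕ) : ℝ) := ⟨_, rfl⟩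
      have hdet : M.det ≠ 0 := by
        rw [hM, Matrix.det_vandermonde_ne_zero_iff]
        intro l l' hll
        have h1 : ((e l : ℕ) : ℝ) = ((e l' : ℕ) : ℝ) := hll
        have h2 : (e l : ℕ) = (e l' : ℕ) := by exact_mod_cast h1
        exact hinj (Fin.ext h2)
      have hunit : IsUnit M.det := isUnit_iff_ne_zero.mpr hdet
      obtain ⟨nm, hnm⟩ : ∃ nm : ℝ, nm = (m : ℝ) * (K : ℝ) ^ m := ⟨_, rfl⟩
      have hnm0 : 0 < nm := by rw [hnm]; positivity
      refine ⟨∑ r : Fin m, ∑ l : Fin m, |M⁻¹ r l| * nm, ?_, ?_⟩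
      · exact Finset.sum_nonneg fun r _ => Finset.sum_nonneg fun l _ => by positivity
      · intro _ x δ hx r
        have h1 : x = M⁻¹.mulVec (M.mulVec x) := by
          rw [Matrix.mulVec_mulVec, Matrix.nonsing_inv_mul _ hunit, Matrix.one_mulVec]
        have h2 : ∀ l, |M.mulVec x l| ≤ nm * δ := by
          intro l
          have h3 := hx (e l) (hes l)
          have h4 : ∑ r, gpbU m K (e l) r / m * x r = M.mulVec x l / nm := by
            rw [Matrix.mulVec, dotProduct, Finset.sum_div]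
            refine Finset.sum_congr rfl fun r _ => ?_
            rw [hM, Matrix.vandermonde_apply, hnm]
            unfold gpbU
            field_simp
          rw [h4, abs_div, abs_of_pos hnm0, div_le_iff₀ hnm0] at h3
          linarith
        have hδ : 0 ≤ δ := (abs_nonneg _).trans (hx (e ⟨0, hm⟩) (hes _))
        have h3 : x r = ∑ l, M⁻¹ r l * M.mulVec x l := by
          conv_lhs => rw [h1]
          rfl
        rw [h3]
        calc |∑ l, M⁻¹ r l * M.mulVec x l| ≤ ∑ l, |M⁻¹ r l * M.mulVec x l| :=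
              Finset.abs_sum_le_sum_abs _ _
          _ ≤ ∑ l, |M⁻¹ r l| * (nm * δ) := by
              refine Finset.sum_le_sum fun l _ => ?_
              rw [abs_mul]
              exact mul_le_mul_of_nonneg_left (h2 l) (abs_nonneg _)
          _ = (∑ l, |M⁻¹ r l| * nm) * δ := by
              rw [Finset.sum_mul]
              exact Finset.sum_congr rfl fun l _ => by ring
          _ ≤ (∑ r : Fin m, ∑ l : Fin m, |M⁻¹ r l| * nm) * δ := by
              refine mul_le_mul_of_nonneg_right ?_ hδ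
              exact Finset.single_le_sum (f := fun r => ∑ l : Fin m, |M⁻¹ r l| * nm)
                (fun r _ => Finset.sum_nonneg fun l _ => by positivity) (Finset.mem_univ r)
    · exact ⟨0, le_rfl, fun h => absurd h hs⟩
  choose Cs hCs0 hCs using hone
  obtain ⟨C, hC⟩ := exists_nat_ge (∑ s : Finset (Fin K), Cs s)
  refine ⟨C, ?_⟩
  intro s hs x δ hx r
  refine (hCs s hs x δ hx r).trans ?_
  have hδ : 0 ≤ δ := by
    have h1 : 0 < s.card := by omega
    obtain ⟨i, hi⟩ := Finset.card_pos.mp h1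
    exact (abs_nonneg _).trans (hx i hi)
  refine mul_le_mul_of_nonneg_right (le_trans ?_ hC) hδ
  exact Finset.single_le_sum (f := Cs) (fun s _ => hCs0 s) (Finset.mem_univ s)

/-- the dyadic cell -/
noncomputable def gpbC (m K h : ℕ) (i : Fin K) (s : Fin m) : ℕ :=
  min ⌊(2 : ℝ) ^ h * gpbU m K i s⌋₊ (2 ^ h - 1)

lemma gpbC_lt (m K h : ℕ) (i : Fin K) (s : Fin m) : gpbC m K h i s < 2 ^ h := by
  unfold gpbC
  have h1 : 0 < 2 ^ h := Nat.pos_of_ne_zero (by positivity)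
  have h2 := min_le_right ⌊(2 : ℝ) ^ h * gpbU m K i s⌋₊ (2 ^ h - 1)
  omega

lemma gpbC_le (m K h : ℕ) (i : Fin K) (s : Fin m) :
    (gpbC m K h i s : ℝ) ≤ (2 : ℝ) ^ h * gpbU m K i s := by
  have h0 : 0 ≤ (2 : ℝ) ^ h * gpbU m K i s := mul_nonneg (by positivity) (gpbU_nonneg m K i s)
  have h1 : (gpbC m K h i s : ℝ) ≤ (⌊(2 : ℝ) ^ h * gpbU m K i s⌋₊ : ℝ) :=
    Nat.cast_le.2 (min_le_left _ _)
  exact h1.trans (Nat.floor_le h0)

lemma gpbC_ge (m K h : ℕ) (i : Fin K) (s : Fin m) :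
    (2 : ℝ) ^ h * gpbU m K i s ≤ (gpbC m K h i s : ℝ) + 1 := by
  unfold gpbC
  rcases le_total ⌊(2 : ℝ) ^ h * gpbU m K i s⌋₊ (2 ^ h - 1) with h1 | h1
  · rw [min_eq_left h1]
    exact (Nat.lt_floor_add_one _).le
  · rw [min_eq_right h1]
    have h2 : 1 ≤ 2 ^ h := Nat.one_le_two_pow
    have h3 : (((2 ^ h - 1 : ℕ) : ℝ)) + 1 = (2 : ℝ) ^ h := by
      rw [Nat.cast_sub h2]
      push_cast
      ring
    rw [h3]
    have h4 := gpbU_le m K i s
    have h5 : (0 : ℝ) < (2 : ℝ) ^ h := by positivity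
    nlinarith

/-- `mq b` is close to the Vandermonde rows -/
lemma gpb_close {m K J h : ℕ} (hm : 0 < m) (hJ : h ≤ J + 1) (b : Mat J K m)
    (hb : ∀ i s, (b i s : ℕ) / 2 ^ (J + 1 - h) = gpbC m K h i s) (i : Fin K) (s : Fin m) :
    |gpbU m K i s / m - mq b i s| ≤ 1 / 2 ^ h / m := by
  have hmr : (0 : ℝ) < m := by exact_mod_cast hm
  have hN : (0 : ℝ) < (2 : ℝ) ^ (J + 1 - h) := by positivity
  have hh : (0 : ℝ) < (2 : ℝ) ^ h := by positivity
  have hP : ((2 ^ (J + 1) : ℕ) : ℝ) = (2 : ℝ) ^ h * (2 : ℝ) ^ (J + 1 - h) := by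
    rw [← pow_add, Nat.add_sub_cancel' hJ]
    push_cast
    rfl
  have h1 : gpbC m K h i s * 2 ^ (J + 1 - h) ≤ (b i s : ℕ) := by
    rw [← hb i s]
    exact Nat.div_mul_le_self _ _
  have h2 : (b i s : ℕ) < (gpbC m K h i s + 1) * 2 ^ (J + 1 - h) := by
    rw [← hb i s]
    have h3 := Nat.div_add_mod (b i s : ℕ) (2 ^ (J + 1 - h))
    have h4 := Nat.mod_lt (b i s : ℕ) (show 0 < 2 ^ (J + 1 - h) by positivity)
    rw [add_mul, one_mul, mul_comm]
    omega
  have h1r : (gpbC m K h i s : ℝ) * (2 : ℝ) ^ (J + 1 - h) ≤ ((b i s : ℕ) : ℝ) := by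
    exact_mod_cast h1
  have h2r : ((b i s : ℕ) : ℝ) ≤ ((gpbC m K h i s : ℝ) + 1) * (2 : ℝ) ^ (J + 1 - h) := by
    exact_mod_cast h2.le
  have hq1 : (gpbC m K h i s : ℝ) ≤ ((b i s : ℕ) : ℝ) / (2 : ℝ) ^ (J + 1 - h) := by
    rw [le_div_iff₀ hN]
    exact h1r
  have hq2 : ((b i s : ℕ) : ℝ) / (2 : ℝ) ^ (J + 1 - h) ≤ (gpbC m K h i s : ℝ) + 1 := by
    rw [div_le_iff₀ hN]
    exact h2r
  have hc1 := gpbC_le m K h i s
  have hc2 := gpbC_ge m K h i s
  have he : gpbU m K i s / m - mq b i s =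
      ((2 : ℝ) ^ h * gpbU m K i s - ((b i s : ℕ) : ℝ) / (2 : ℝ) ^ (J + 1 - h)) / 2 ^ h / m := by
    unfold mq
    rw [hP]
    field_simp
  rw [he, abs_div, abs_div, abs_of_pos hmr, abs_of_pos hh]
  refine div_le_div_of_nonneg_right (div_le_div_of_nonneg_right ?_ hh.le) hmr.le
  rw [abs_le]
  constructor <;> linarith

theorem gpb : GPBStmt := by
  classical
  intro m K hm
  have hmr : (0 : ℝ) < m := by exact_mod_cast hm
  obtain ⟨C₀, hC₀⟩ := gpb_det m K hm
  obtain ⟨h, hh⟩ : ∃ h : ℕ, 2 * C₀ ≤ 2 ^ h := ⟨2 * C₀, Nat.lt_two_pow_self.le⟩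
  refine ⟨2 * C₀, 1 / (((2 ^ h) ^ m) ^ K : ℕ), by positivity, h, ?_⟩
  intro J hJ
  have hJ' : h ≤ J + 1 := by omega
  refine ⟨Finset.univ.filter fun b : Mat J K m =>
    ∀ i s, (b i s : ℕ) / 2 ^ (J + 1 - h) = gpbC m K h i s, ?_, ?_⟩
  · intro b hb
    have hb' := (Finset.mem_filter.1 hb).2
    refine ⟨mq_le b, ?_⟩
    intro s hs x δ hx
    obtain ⟨r₀, -, hr₀⟩ := Finset.exists_max_image (Finset.univ : Finset (Fin m)) (fun r => |x r|)
      ⟨⟨0, hm⟩, Finset.mem_univ _⟩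
    have h1 : ∀ i ∈ s, |∑ r, gpbU m K i r / m * x r| ≤ δ + 1 / 2 ^ h * |x r₀| := by
      intro i hi
      have h2 : ∑ r, gpbU m K i r / m * x r =
          ∑ r, mq b i r * x r + ∑ r, (gpbU m K i r / m - mq b i r) * x r := by
        rw [← Finset.sum_add_distrib]
        exact Finset.sum_congr rfl fun r _ => by ring
      have h3 : |∑ r, (gpbU m K i r / m - mq b i r) * x r| ≤ 1 / 2 ^ h * |x r₀| := by
        calc |∑ r, (gpbU m K i r / m - mq b i r) * x r|
            ≤ ∑ r, |(gpbU m K i r / m - mq b i r) * x r| := Finset.abs_sum_le_sum_abs _ _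
          _ ≤ ∑ _r : Fin m, 1 / 2 ^ h / m * |x r₀| := by
              refine Finset.sum_le_sum fun r _ => ?_
              rw [abs_mul]
              exact mul_le_mul (gpb_close hm hJ' b hb' i r) (hr₀ r (Finset.mem_univ r))
                (abs_nonneg _) (by positivity)
          _ = 1 / 2 ^ h * |x r₀| := by
              rw [Finset.sum_const, Finset.card_univ, Fintype.card_fin, nsmul_eq_mul]
              field_simp
      rw [h2]
      exact (abs_add_le _ _).trans (add_le_add (hx i hi) h3)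
    have h4 := hC₀ s hs x _ h1 r₀
    have h5 : (C₀ : ℝ) * (1 / 2 ^ h) ≤ 1 / 2 := by
      have h6 : (2 : ℝ) * C₀ ≤ 2 ^ h := by exact_mod_cast hh
      have h7 : (0 : ℝ) < 2 ^ h := by positivity
      rw [mul_one_div, div_le_iff₀ h7]
      linarith
    have h6 : |x r₀| ≤ C₀ * δ + 1 / 2 * |x r₀| := by
      have h7 := mul_le_mul_of_nonneg_right h5 (abs_nonneg (x r₀))
      nlinarith
    intro r
    have h7 := hr₀ r (Finset.mem_univ r)
    have h8 : |x r₀| ≤ 2 * C₀ * δ := by linarith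
    push_cast
    exact h7.trans h8
  · -- counting
    have hN : 0 < 2 ^ (J + 1 - h) := by positivity
    have hP : 2 ^ (J + 1) = 2 ^ h * 2 ^ (J + 1 - h) := by
      rw [← pow_add, Nat.add_sub_cancel' hJ']
    have hlt : ∀ (e : Fin K → Fin m → Fin (2 ^ (J + 1 - h))) (i : Fin K) (s : Fin m),
        gpbC m K h i s * 2 ^ (J + 1 - h) + (e i s : ℕ) < 2 ^ (J + 1) := by
      intro e i s
      have h1 := gpbC_lt m K h i s
      have h2 := (e i s).isLt
      have h3 : (gpbC m K h i s + 1) * 2 ^ (J + 1 - h) ≤ 2 ^ h * 2 ^ (J + 1 - h) :=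
        Nat.mul_le_mul_right _ h1
      rw [hP]
      rw [add_mul, one_mul] at h3
      omega
    have hcard : Fintype.card (Fin K → Fin m → Fin (2 ^ (J + 1 - h))) ≤
        (Finset.univ.filter fun b : Mat J K m =>
          ∀ i s, (b i s : ℕ) / 2 ^ (J + 1 - h) = gpbC m K h i s).card := by
      rw [← Finset.card_univ]
      refine Finset.card_le_card_of_injOn (fun e i s => ⟨_, hlt e i s⟩) ?_ ?_
      · intro e _
        refine Finset.mem_coe.2 (Finset.mem_filter.2 ⟨Finset.mem_univ _, fun i s => ?_⟩)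
        show (gpbC m K h i s * 2 ^ (J + 1 - h) + (e i s : ℕ)) / 2 ^ (J + 1 - h) = gpbC m K h i s
        rw [Nat.add_comm, Nat.add_mul_div_right _ _ hN, Nat.div_eq_of_lt (e i s).isLt, Nat.zero_add]
      · intro e _ e' _ hee
        funext i s
        have h1 := congrFun (congrFun hee i) s
        have h2 := congrArg Fin.val h1
        apply Fin.ext
        have h3 : gpbC m K h i s * 2 ^ (J + 1 - h) + (e i s : ℕ) =
            gpbC m K h i s * 2 ^ (J + 1 - h) + (e' i s : ℕ) := h2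
        omega
    have e1 : Fintype.card (Fin K → Fin m → Fin (2 ^ (J + 1 - h))) =
        ((2 ^ (J + 1 - h)) ^ m) ^ K := by
      simp
    have e2 : Fintype.card (Mat J K m) = ((2 ^ (J + 1)) ^ m) ^ K := by
      simp
    have e3 : ((2 ^ (J + 1)) ^ m) ^ K = ((2 ^ h) ^ m) ^ K * ((2 ^ (J + 1 - h)) ^ m) ^ K := by
      rw [hP, mul_pow, mul_pow]
    rw [e1] at hcard
    rw [e2, e3]
    have hpos : (0 : ℝ) < ((((2 ^ h) ^ m) ^ K : ℕ) : ℝ) := by positivity
    rw [Nat.cast_mul, one_div, ← mul_assoc, inv_mul_cancel₀ hpos.ne', one_mul]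
    exact_mod_cast hcard

end Pool.RF
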